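import Pool.Agent.FX.Words

set_option autoImplicit false

namespace Pool.Agent.FX

section
variable {w : ℕ → Bool} {N D c : ℕ}

theorem two_le_of_not_sub {n : ℕ} (h : ¬ (RS w n).Subsingleton) : 2 ≤ (RS w n).ncard := by
  classical
  rw [Set.not_subsingleton_iff] at h
  exact (Set.one_lt_ncard (Set.toFinite _)).2 h

theorem rs_nonempty
    (hrep : ∀ K K', K < K' → K' ≤ N + D → ∃ M, 59 * M ≤ 78 * K' + c ∧ w (K + M) ≠ w (K' + M))
    (hp : cplx w N ≤ N + D) {n : ℕ} (hn : n ≤ N) : 1 ≤ (RS w n).ncard := by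
  obtain ⟨K, K', M, hlev, -, -⟩ := exists_lev w n (N + D) c ((cplx_mono w hn).trans hp) hrep
  have := hlev.rs hlev.hL
  exact (Set.ncard_pos (Set.toFinite _)).2 ⟨_, this⟩

theorem cplx_add
    (hrep : ∀ K K', K < K' → K' ≤ N + D → ∃ M, 59 * M ≤ 78 * K' + c ∧ w (K + M) ≠ w (K' + M))
    (hp : cplx w N ≤ N + D) (n k : ℕ) (hn : n + k ≤ N) : cplx w n + k ≤ cplx w (n + k) := by
  induction k with
  | zero => simp
  | succ k ih =>
    have h1 := ih (by omega)
    have h2 := cplx_succ w (n + k)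
    have h3 := rs_nonempty hrep hp (n := n + k) (by omega)
    have : n + (k + 1) = n + k + 1 := by omega
    rw [this]
    omega

theorem exists_good
    (hrep : ∀ K K', K < K' → K' ≤ N + D → ∃ M, 59 * M ≤ 78 * K' + c ∧ w (K + M) ≠ w (K' + M))
    (hp : cplx w N ≤ N + D) (a : ℕ) (ha : a + D ≤ N) :
    ∃ n, a ≤ n ∧ n < a + D ∧ (RS w n).Subsingleton := by
  by_contra hcon
  have key : ∀ k, k ≤ D → cplx w a + 2 * k ≤ cplx w (a + k) := by
    intro k
    induction k with
    | zero => intro _; simp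
    | succ k ih =>
      intro hk
      have h1 := ih (by omega)
      have h2 := cplx_succ w (a + k)
      have h3 : 2 ≤ (RS w (a + k)).ncard :=
        two_le_of_not_sub (fun h => hcon ⟨a + k, by omega, by omega, h⟩)
      have : a + (k + 1) = a + k + 1 := by omega
      rw [this]
      omega
  have h1 := key D le_rfl
  have h2 := cplx_add hrep hp 0 a (by omega)
  have h3 := cplx_add hrep hp (a + D) (N - (a + D)) (by omega)
  have h0 := cplx_zero w
  have e : a + D + (N - (a + D)) = N := by omega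
  rw [e] at h3
  rw [Nat.zero_add] at h2
  omega

/-- A level of a good length. -/
structure GLev (w : ℕ → Bool) (D c L K K' M : ℕ) : Prop where
  lev : Lev w L K K' M
  good : (RS w L).Subsingleton
  hK' : K' ≤ L + D
  hM : 59 * M ≤ 78 * K' + c

theorem exists_glev
    (hrep : ∀ K K', K < K' → K' ≤ N + D → ∃ M, 59 * M ≤ 78 * K' + c ∧ w (K + M) ≠ w (K' + M))
    (hp : cplx w N ≤ N + D) (a : ℕ) (ha : a + D ≤ N) :
    ∃ L K K' M, a ≤ L ∧ L < a + D ∧ GLev w D c L K K' M := by
  obtain ⟨L, h1, h2, h3⟩ := exists_good hrep hp a ha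
  obtain ⟨K, K', M, hlev, h4, h5⟩ := exists_lev w L (N + D) c ((cplx_mono w (by omega)).trans hp) hrep
  refine ⟨L, K, K', M, h1, h2, hlev, h3, ?_, h5⟩
  have h6 := cplx_add hrep hp L (N - L) (by omega)
  have e : L + (N - L) = N := by omega
  rw [e] at h6
  omega

/-- A good length close to the end of a level. -/
theorem GLev.near
    (hrep : ∀ K K', K < K' → K' ≤ N + D → ∃ M, 59 * M ≤ 78 * K' + c ∧ w (K + M) ≠ w (K' + M))
    (hp : cplx w N ≤ N + D) {L K K' M : ℕ} (h : GLev w D c L K K' M) (hM : M < N) :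
    ∃ n, L ≤ n ∧ n ≤ M ∧ M < n + D + 1 ∧ (RS w n).Subsingleton := by
  by_cases hlt : M < L + D
  · exact ⟨L, le_rfl, h.lev.hL, by omega, h.good⟩
  · push Not at hlt
    obtain ⟨n, h1, h2, h3⟩ := exists_good hrep hp (M + 1 - D) (by omega)
    exact ⟨n, by have := h.lev.hL; omega, by omega, by omega, h3⟩

/-- Two consecutive levels. -/
theorem step
    (hrep : ∀ K K', K < K' → K' ≤ N + D → ∃ M, 59 * M ≤ 78 * K' + c ∧ w (K + M) ≠ w (K' + M))
    (hp : cplx w N ≤ N + D) {L K K' M : ℕ} (h : GLev w D c L K K' M) (hM : M + 1 + D ≤ N) :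
    ∃ L2 K2 K2' M2, M < L2 ∧ L2 ≤ M + D ∧ GLev w D c L2 K2 K2' M2 ∧
      (K2 < 2 * D ∨ K < 2 * D) ∧ K' ≤ K2' ∧
      K + M ≤ K2 + M2 + D ∧
      (K + D < K' → K2 + M2 = K + M ∨ K' + M ≤ K2 + M2 + D) := by
  obtain ⟨L2, K2, K2', M2, h1, h2, h3⟩ := exists_glev hrep hp (M + 1) (by omega)
  obtain ⟨n, g1, g2, g3, g4⟩ := h.near hrep hp (by omega)
  have hfw := h.lev.fw h3.lev (by omega)
  have hL2 := h3.lev.hL
  have hends := h.lev.ends h3.lev g1 g2 (by omega) g4
  refine ⟨L2, K2, K2', M2, by omega, by omega, h3, ?_, hfw.1, ?_, ?_⟩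
  · have := h3.hK'
    rcases hfw.2 with hh | hh
    · left; omega
    · right; omega
  · have := hends.1
    omega
  · intro hlt
    rcases hends.2 (by omega) with hh | hh
    · left; exact hh
    · right; omega

end

/-- **Gap theorem**: few repetitions near the beginning force many blocks. -/
theorem gap (w : ℕ → Bool) (N D c : ℕ) (hN : 100000 ≤ N) (hc : 300 * c ≤ N) (hD : 3000 * D ≤ N)
    (hrep : ∀ K K', K < K' → K' ≤ N + D →
      ∃ M, 59 * M ≤ 78 * K' + c ∧ w (K + M) ≠ w (K' + M)) : N + D < cplx w N := by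
  by_contra hcon
  push Not at hcon
  have hp := hcon
  by_cases hD0 : D = 0
  · subst hD0
    have := cplx_add hrep hp 0 N (by omega)
    rw [cplx_zero, Nat.zero_add] at this
    omega
  set A := 42 * N / 100 with hA
  -- final contradiction from a level with small K whose successor jumps
  have fin : ∀ L K K' M, GLev w D c L K K' M → A ≤ M →
      3481 * M ≤ 6084 * A + 29000 * D + 137 * c →
      ∀ L2 K2 K2' M2, M < L2 → L2 ≤ M + D → GLev w D c L2 K2 K2' M2 →
      K' + M ≤ K2 + M2 + D → False := by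
    intro L K K' M h hAM hMB L2 K2 K2' M2 hL2 hL2' h2 hE
    have a1 := h.hM
    have a2 := h2.hM
    have a3 := h2.hK'
    have a4 : 2 * D ≤ K2 := by omega
    obtain ⟨L3, K3, K3', M3, b1, b2, b3, b4, b5, b6, -⟩ := step hrep hp h2 (by omega)
    have a5 := b3.hM
    have a6 := b3.hK'
    omega
  -- levels with small K are impossible
  have small : ∀ k, ∀ L K K' M, K ≤ k → K < 2 * D → GLev w D c L K K' M → A ≤ M →
      3481 * (M + K) ≤ 6084 * A + 29000 * D + 137 * c → False := by
    intro k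
    induction k with
    | zero =>
      intro L K K' M hk hK h hAM hMB
      obtain ⟨L2, K2, K2', M2, b1, b2, b3, b4, b5, b6, b7⟩ := step hrep hp h (by omega)
      have a1 := h.hM
      have a3 := b3.lev.hL
      rcases b7 (by omega) with hh | hh
      · omega
      · exact fin L K K' M h hAM (by omega) L2 K2 K2' M2 b1 b2 b3 hh
    | succ k ih =>
      intro L K K' M hk hK h hAM hMB
      obtain ⟨L2, K2, K2', M2, b1, b2, b3, b4, b5, b6, b7⟩ := step hrep hp h (by omega)
      have a1 := h.hM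
      have a3 := b3.lev.hL
      rcases b7 (by omega) with hh | hh
      · exact ih L2 K2 K2' M2 (by omega) (by omega) b3 (by omega) (by omega)
      · exact fin L K K' M h hAM (by omega) L2 K2 K2' M2 b1 b2 b3 hh
  obtain ⟨L, K, K', M, c1, c2, h⟩ := exists_glev hrep hp A (by omega)
  have d1 := h.lev.hL
  have d2 := h.hK'
  have d3 := h.hM
  obtain ⟨L2, K2, K2', M2, b1, b2, b3, b4, b5, b6, b7⟩ := step hrep hp h (by omega)
  have e1 := b3.lev.hL
  have e2 := b3.hK'
  have e3 := b3.hM
  rcases b4 with hh | hh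
  · exact small K2 L2 K2 K2' M2 le_rfl hh b3 (by omega) (by omega)
  · exact small K L K K' M le_rfl hh h (by omega) (by omega)

end Pool.Agent.FX
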