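import Pool.Agent.FX.Words2

set_option autoImplicit false

namespace Pool.Agent.FX

section
variable {w : ℕ → Bool} {N D c : ℕ}

/-- Two consecutive levels, full information. -/
theorem step2
    (hrep : ∀ K K', K < K' → K' ≤ N + D → ∃ M, 59 * M ≤ 78 * K' + c ∧ w (K + M) ≠ w (K' + M))
    (hp : cplx w N ≤ N + D) {L K K' M : ℕ} (h : GLev w D c L K K' M) (hM : M + 1 + D ≤ N) :
    ∃ L2 K2 K2' M2, M < L2 ∧ L2 ≤ M + D ∧ GLev w D c L2 K2 K2' M2 ∧
      (K2 + M < K2' ∨ K + M < K2') ∧ K' ≤ K2' ∧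
      K + M ≤ K2 + M2 + D ∧
      (K + D < K' → K2 + M2 = K + M ∨ K2 + M2 = K' + M ∨ K + 2 * M < K2 + M2 + D) := by
  obtain ⟨L2, K2, K2', M2, h1, h2, h3⟩ := exists_glev hrep hp (M + 1) (by omega)
  obtain ⟨n, g1, g2, g3, g4⟩ := h.near hrep hp (by omega)
  have hfw := h.lev.fw h3.lev (by omega)
  have hL2 := h3.lev.hL
  have hends := h.lev.ends h3.lev g1 g2 (by omega) g4
  refine ⟨L2, K2, K2', M2, by omega, by omega, h3, hfw.2, hfw.1, ?_, ?_⟩
  · have := hends.1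
    omega
  · intro hlt
    rcases h.lev.third h3.lev g1 g2 (by omega) g4 (by omega) with hh | hh | hh
    · left; exact hh
    · right; left; exact hh
    · right; right; omega

end

/-- The words part of the final contradiction. -/
theorem fin_words {w : ℕ → Bool} {N D c k0 r m0 k1 p1 m1 k2 q m2 k3 p3 m3 L3 : ℕ}
    (hrep : ∀ K K', K < K' → K' ≤ N + D → ∃ M, 59 * M ≤ 78 * K' + c ∧ w (K + M) ≠ w (K' + M))
    (s0 : ∀ x, k0 ≤ x → x < k0 + m0 → w x = w (x + r))
    (s1 : ∀ x, k1 ≤ x → x < k1 + m1 → w x = w (x + p1))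
    (s2 : ∀ x, k2 ≤ x → x < k2 + m2 → w x = w (x + q))
    (s3 : ∀ x, k3 ≤ x → x < k3 + m3 → w x = w (x + p3))
    (dist : ∀ g, 0 < g → g < p3 → ∃ x < L3, w (k3 + x) ≠ w (k3 + g + x)) (hL3 : L3 ≤ m3)
    (hk0 : k0 < 2 * D) (hk1 : 2 * D < k1) (hk2 : k2 < 2 * D) (hDN : 4 * D ≤ N)
    (hE1 : k1 + m1 = k0 + r + m0) (hm0 : 548 * D + c < 59 * m0) (hm01 : m0 < m1) (_hm12 : m1 < m2)
    (hq1 : m1 < q) (hq2 : q ≤ m1 + 2 * D) (hr1 : m1 < r + p1) (hr2 : r + p1 ≤ m1 + 2 * D)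
    (hrpos : 0 < r) (hrp : r < p3) (hE12 : k1 + m1 ≤ k2 + m2 + D)
    (hb : k1 + p1 + (m1 - D) + r ≤ k3 + p3 + m3) (hlen1 : p3 ≤ m1 - D)
    (hlen2 : k3 + p3 ≤ k1 + p1 + (m1 - D)) : False := by
  have s01 : ∀ x, k0 ≤ x → x < k0 + m0 → w x = w (x + (r + p1)) := by
    intro x h1 h2
    rw [s0 x h1 h2, s1 (x + r) (by omega) (by omega), Nat.add_assoc]
  -- no short period near the beginning
  have noper : ∀ t, 0 < t → t < 2 * D → (∀ x, 2 * D ≤ x → x + t < m0 → w x = w (x + t)) → False := by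
    intro t ht1 ht2 h
    obtain ⟨M, hM1, hM2⟩ := hrep (2 * D) (2 * D + t) (by omega) (by omega)
    apply hM2
    have := h (2 * D + M) (by omega) (by omega)
    rw [this]
    congr 1
    omega
  have hqr : q = r + p1 := by
    rcases lt_trichotomy q (r + p1) with hlt | heq | hlt
    · exfalso
      apply noper (r + p1 - q) (by omega) (by omega)
      intro x h1 h2
      have e1 := s01 x (by omega) (by omega)
      have e2 := s2 (x + (r + p1 - q)) (by omega) (by omega)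
      have e3 : x + (r + p1 - q) + q = x + (r + p1) := by omega
      rw [e3] at e2
      rw [e1, e2]
    · exact heq
    · exfalso
      apply noper (q - (r + p1)) (by omega) (by omega)
      intro x h1 h2
      have e1 := s2 x (by omega) (by omega)
      have e2 := s01 (x + (q - (r + p1))) (by omega) (by omega)
      have e3 : x + (q - (r + p1)) + (r + p1) = x + q := by omega
      rw [e3] at e2
      rw [e1, e2]
  have hp3pos : 0 < p3 := by omega
  have perA : Per w (k1 + p1) (k1 + p1 + (m1 - D) + r) r := by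
    intro x h1 h2
    have e1 := s1 (x - p1) (by omega) (by omega)
    have e2 := s2 (x - p1) (by omega) (by omega)
    have e3 : x - p1 + p1 = x := by omega
    have e4 : x - p1 + q = x + r := by omega
    rw [e3] at e1
    rw [e4] at e2
    rw [← e1, e2]
  have perB : Per w k3 (k3 + p3 + m3) p3 := by
    intro x h1 h2
    exact s3 x h1 (by omega)
  obtain ⟨a, ha1, ha2, ha3⟩ : ∃ a, k1 + p1 ≤ a ∧ k3 ≤ a ∧ a + (r + p3) ≤ k1 + p1 + (m1 - D) + r := by
    rcases le_total (k1 + p1) k3 with hh | hh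
    · exact ⟨k3, hh, le_rfl, by omega⟩
    · exact ⟨k1 + p1, le_rfl, hh, by omega⟩
  have hg1 : Nat.gcd r p3 ≤ r := Nat.gcd_le_left _ hrpos
  have hg0 : 0 < Nat.gcd r p3 := Nat.gcd_pos_of_pos_left _ hrpos
  have hper := per_gcd (r + p3) r p3 le_rfl hrpos hp3pos (per_mono perA ha1 le_rfl)
    (per_mono perB ha2 hb) ha3
  have hper2 := per_extend hg0 hp3pos perB hper ha2 hb (by omega)
  obtain ⟨x, hx, hne⟩ := dist (Nat.gcd r p3) hg0 (by omega)
  apply hne
  have := hper2 (k3 + x) (by omega) (by omega)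
  rw [this]
  congr 1
  omega

theorem Lev.shift {w : ℕ → Bool} {L K p M : ℕ} (h : Lev w L K (K + p) M) :
    ∀ x, K ≤ x → x < K + M → w x = w (x + p) := by
  intro x hx1 hx2
  have h1 := h.eq (x - K) (by omega)
  have e1 : K + (x - K) = x := by omega
  have e2 : K + p + (x - K) = x + p := by omega
  rw [e1, e2] at h1
  exact h1

/-- **Gap theorem**, better constant. -/
theorem gap2 (w : ℕ → Bool) (N D c : ℕ) (hN : 100000 ≤ N) (hc : 300 * c ≤ N) (hD : 200 * D ≤ N)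
    (hrep : ∀ K K', K < K' → K' ≤ N + D →
      ∃ M, 59 * M ≤ 78 * K' + c ∧ w (K + M) ≠ w (K' + M)) : N + D < cplx w N := by
  by_contra hcon
  push Not at hcon
  have hp := hcon
  by_cases hD0 : D = 0
  · subst hD0
    have := cplx_add hrep hp 0 N (by omega)
    rw [cplx_zero, Nat.zero_add] at this
    omega
  set A := 203 * N / 1000 with hA
  have hA1 : 1000 * A ≤ 203 * N := by omega
  have hA2 : 203 * N < 1000 * A + 1000 := by omega
  clear_value A
  -- a jump to (almost) twice the length is impossible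
  have big : ∀ L K K' M, GLev w D c L K K' M → A ≤ M → 78 * (M + 2 * D) + c + 59 * (D + 1) ≤ 59 * N →
      ∀ L1 K1 K1' M1, M < L1 → L1 ≤ M + D → GLev w D c L1 K1 K1' M1 → K + 2 * M < K1 + M1 + D →
      False := by
    intro L K K' M h hAM hMN L1 K1 K1' M1 hL1 hL1' h1 hE
    have a1 := h1.hM
    have a2 := h1.hK'
    have a3 : M1 + 1 + D ≤ N := by omega
    obtain ⟨L2, K2, K2', M2, b1, b2, b3, b4, b5, b6, -⟩ := step2 hrep hp h1 a3
    have a4 := b3.hM
    have a5 := b3.hK'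
    have a6 : 2 * D ≤ K1 := by omega
    have a7 : K2 < 2 * D := by omega
    omega
  have big2 : ∀ Q, 16 * A ≤ 10 * Q → ∀ L K K' M, GLev w D c L K K' M → M ≤ Q + 2 * D →
      78 * (M + 2 * D) + c + 59 * (D + 1) ≤ 59 * N →
      ∀ L1 K1 K1' M1, M < L1 → L1 ≤ M + D → GLev w D c L1 K1 K1' M1 → 2 * Q ≤ K1 + M1 + D →
      False := by
    intro Q hQ L K K' M h hMQ hMN L1 K1 K1' M1 hL1 hL1' h1 hE
    have a1 := h1.hM
    have a2 := h1.hK'
    have a3 : M1 + 1 + D ≤ N := by omega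
    obtain ⟨L2, K2, K2', M2, b1, b2, b3, b4, b5, b6, -⟩ := step2 hrep hp h1 a3
    have a4 := b3.hM
    have a5 := b3.hK'
    have a6 : 2 * D ≤ K1 := by omega
    have a7 : K2 < 2 * D := by omega
    omega
  -- pass to the last level with the same end
  have desc : ∀ k, ∀ L K K' M, K ≤ k → K < 2 * D → GLev w D c L K K' M → A ≤ M →
      M + K + 1 + D ≤ N →
      ∃ La Ka Ka' Ma L2 K2 K2' M2, GLev w D c La Ka Ka' Ma ∧ Ka < 2 * D ∧ Ma + Ka = M + K ∧ M ≤ Ma ∧
        K' ≤ Ka' ∧ Ma < L2 ∧ L2 ≤ Ma + D ∧ GLev w D c L2 K2 K2' M2 ∧ (K2 + Ma < K2' ∨ Ka + Ma < K2') ∧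
        (K2 + M2 = Ka' + Ma ∨ Ka + 2 * Ma < K2 + M2 + D) := by
    intro k
    induction k with
    | zero =>
      intro L K K' M hk hK h hAM hMB
      obtain ⟨L2, K2, K2', M2, b1, b2, b3, b4, b5, b6, b7⟩ := step2 hrep hp h (by omega)
      have a1 := h.hM
      have a3 := b3.lev.hL
      rcases b7 (by omega) with hh | hh
      · omega
      · exact ⟨L, K, K', M, L2, K2, K2', M2, h, hK, rfl, le_rfl, le_rfl, b1, b2, b3, b4, hh⟩
    | succ k ih =>
      intro L K K' M hk hK h hAM hMB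
      obtain ⟨L2, K2, K2', M2, b1, b2, b3, b4, b5, b6, b7⟩ := step2 hrep hp h (by omega)
      have a1 := h.hM
      have a3 := b3.lev.hL
      rcases b7 (by omega) with hh | hh
      · obtain ⟨La, Ka, Ka', Ma, L4, K4, K4', M4, d1, d2, d3, d4, d5, d6⟩ :=
          ih L2 K2 K2' M2 (by omega) (by omega) b3 (by omega) (by omega)
        exact ⟨La, Ka, Ka', Ma, L4, K4, K4', M4, d1, d2, by omega, by omega, by omega, d6⟩
      · exact ⟨L, K, K', M, L2, K2, K2', M2, h, hK, rfl, le_rfl, le_rfl, b1, b2, b3, b4, hh⟩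
  -- a first level with small K
  have start : ∃ L K K' M, GLev w D c L K K' M ∧ K < 2 * D ∧ A ≤ M ∧
      3481 * (M + K) ≤ 6084 * A + 29000 * D + 137 * c := by
    obtain ⟨L, K, K', M, c1, c2, h⟩ := exists_glev hrep hp A (by omega)
    have d1 := h.lev.hL
    have d2 := h.hK'
    have d3 := h.hM
    obtain ⟨L2, K2, K2', M2, b1, b2, b3, b4, b5, b6, b7⟩ := step2 hrep hp h (by omega)
    have e1 := b3.lev.hL
    have e2 := b3.hK'
    have e3 := b3.hM
    rcases b4 with hh | hh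
    · exact ⟨L2, K2, K2', M2, b3, by omega, by omega, by omega⟩
    · exact ⟨L, K, K', M, h, by omega, by omega, by omega⟩
  obtain ⟨L, K, K', M, hX, hK, hAM, hMK⟩ := start
  obtain ⟨L0, k0, k0', m0, L1, k1, k1', m1, g0, hk0, hm0, hm0', -, hL1, hL1', g1, hfw1, hE1⟩ :=
    desc K L K K' M le_rfl hK hX hAM (by omega)
  have hm0A : A ≤ m0 := by omega
  have hm0B : 3481 * (m0 + k0) ≤ 6084 * A + 29000 * D + 137 * c := by omega
  clear hMK hAM hX hm0 hm0'
  rcases hE1 with hE1 | hE1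
  swap
  · exact big L0 k0 k0' m0 g0 hm0A (by omega) L1 k1 k1' m1 hL1 hL1' g1 hE1
  have f0 := g0.hK'
  have f0L := g0.lev.hL
  have f0M := g0.hM
  have f0K := g0.lev.hK
  have f1 := g1.hK'
  have f1L := g1.lev.hL
  have f1M := g1.hM
  have f1K := g1.lev.hK
  have hk1 : 2 * D < k1 := by clear hfw1; omega
  have hk01 : k0 + m0 < k1' := by
    rcases hfw1 with hh | hh
    · omega
    · exact hh
  clear hfw1
  -- level 2
  obtain ⟨L2, k2, k2', m2, hL2, hL2', g2, hfw2, -, hend2, -⟩ := step2 hrep hp g1 (by omega)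
  have f2 := g2.hK'
  have f2L := g2.lev.hL
  have f2M := g2.hM
  have f2K := g2.lev.hK
  have hk12 : k2 + m1 < k2' := by
    rcases hfw2 with hh | hh
    · exact hh
    · omega
  clear hfw2
  have hk2 : k2 < 2 * D := by omega
  have hm2A : 16 * A ≤ 10 * m2 := by omega
  have hm2B : 78 * (m2 + 2 * D) + c + 59 * (D + 1) ≤ 59 * N := by omega
  have hm2C : 78 * (m2 + 4 * D) + c + 59 * (D + 1) ≤ 59 * N := by omega
  -- level 3
  obtain ⟨L3, k3, k3', m3, hL3, hL3', g3, hfw3, -, hend3, htri3⟩ := step2 hrep hp g2 (by omega)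
  have f3 := g3.hK'
  have f3L := g3.lev.hL
  have f3M := g3.hM
  have f3K := g3.lev.hK
  have htri3' := htri3 (by clear hfw3; omega)
  clear htri3
  have hAm2 : A ≤ m2 := by clear hfw3 htri3' hm2C; omega
  rcases htri3' with hE3 | hE3 | hE3
  · -- the end stays: look at the next jump
    clear f0 f0M f1 f1M f2M f3M hm0B hE1 hm2B f0L f1K f2K f0K hk01 hk12 hend2 hend3 hm0A
    have q4 : m2 < k3' := by omega
    clear hfw3
    have q1 : k3 < 2 * D := by omega
    have q2 : A ≤ m3 := by omega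
    have q5 : m3 + k3 ≤ m2 + 2 * D := by omega
    have q3 : m3 + k3 + 1 + D ≤ N := by omega
    obtain ⟨La, ka, ka', ma, Lb, kb, kb', mb, ga, hka, hma, hma', hka', hLb, hLb', gb, -, hEb⟩ :=
      desc k3 L3 k3 k3' m3 le_rfl q1 g3 q2 q3
    clear f2 f3 f3K hk1 hL1 hL1' hL2 hL2' f1L f2L
    have q6 : ma ≤ m2 + 2 * D := by omega
    have q7 : 78 * (ma + 2 * D) + c + 59 * (D + 1) ≤ 59 * N := by omega
    have q8 : 2 * m2 ≤ kb + mb + D := by
      clear hm2C q7
      omega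
    exact big2 m2 hm2A La ka ka' ma ga q6 q7 Lb kb kb' mb hLb hLb' gb q8
  swap
  · exact big L2 k2 k2' m2 g2 hAm2 hm2B L3 k3 k3' m3 hL3 hL3' g3 hE3
  clear hm2C hm2B
  have hk3 : 2 * D < k3 := by clear hfw3; omega
  have hk23 : k2 + m2 < k3' := by
    rcases hfw3 with hh | hh
    · omega
    · exact hh
  clear hfw3
  -- level 4
  obtain ⟨L4, k4, k4', m4, hL4, hL4', g4, hfw4, -, hend4, -⟩ := step2 hrep hp g3 (by omega)
  have f4 := g4.hK'
  have f4L := g4.lev.hL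
  have f4M := g4.hM
  have hk34 : k4 + m3 < k4' := by
    rcases hfw4 with hh | hh
    · exact hh
    · omega
  clear hfw4 big big2 desc

  obtain ⟨r, rfl⟩ : ∃ r, k0' = k0 + r := Nat.exists_eq_add_of_le f0K.le
  obtain ⟨p1, rfl⟩ : ∃ p, k1' = k1 + p := Nat.exists_eq_add_of_le f1K.le
  obtain ⟨q, rfl⟩ : ∃ p, k2' = k2 + p := Nat.exists_eq_add_of_le f2K.le
  obtain ⟨p3, rfl⟩ : ∃ p, k3' = k3 + p := Nat.exists_eq_add_of_le f3K.le
  have hm01 : m0 < m1 := lt_of_lt_of_le hL1 f1L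
  have hm12 : m1 < m2 := lt_of_lt_of_le hL2 f2L
  have hm23 : m2 < m3 := lt_of_lt_of_le hL3 f3L
  have hDm : D ≤ m1 := by linarith
  obtain ⟨e, he⟩ : ∃ e, m1 = D + e := Nat.exists_eq_add_of_le hDm
  have he2 : m1 - D = e := by rw [he]; exact Nat.add_sub_cancel_left D e
  refine fin_words (L3 := L3) (m0 := m0) (m2 := m2) (m3 := m3) hrep g0.lev.shift g1.lev.shift
    g2.lev.shift g3.lev.shift ?_ f3L hk0 hk1 hk2 ?_ hE1 ?_ hm01 hm12 ?_ ?_ ?_ ?_ ?_ ?_ hend2 ?_ ?_ ?_
  · intro g hg1 hg2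
    exact g3.lev.dist k3 (k3 + g) (Nat.lt_add_of_pos_right hg1) (Nat.add_lt_add_left hg2 k3)
  all_goals clear g0 g1 g2 g3 g4 hp hcon hrep
  all_goals try rw [he2]
  all_goals linarith

end Pool.Agent.FX
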