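import Pool.Agent.FX.Gap2

set_option autoImplicit false

namespace Pool.Agent.FX

/-- The `5x+1` map. -/
def T (x : ℤ) : ℤ := if x % 2 = 0 then x / 2 else (5 * x + 1) / 2

/-- Parity of the iterates. -/
def par (x : ℤ) (K : ℕ) : Bool := decide (T^[K] x % 2 = 1)

theorem two_T (x : ℤ) : (x % 2 = 0 ∧ 2 * T x = x) ∨ (x % 2 = 1 ∧ 2 * T x = 5 * x + 1) := by
  unfold T
  split_ifs with h
  · left; omega
  · right; omega

theorem T_pos {x : ℤ} (hx : 0 < x) : 0 < T x := by
  rcases two_T x with h | h <;> omega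

theorem iter_pos {x : ℤ} (hx : 0 < x) (K : ℕ) : 0 < T^[K] x := by
  induction K with
  | zero => exact hx
  | succ K ih => rw [Function.iterate_succ_apply']; exact T_pos ih

theorem iter_bound {x : ℤ} (hx : 0 < x) (K : ℕ) :
    2 ^ K * (3 * T^[K] x + 1) ≤ 5 ^ K * (3 * x + 1) := by
  induction K with
  | zero => simp
  | succ K ih =>
    rw [Function.iterate_succ_apply']
    have hp := iter_pos hx K
    have h1 : 2 * (3 * T (T^[K] x) + 1) ≤ 5 * (3 * T^[K] x + 1) := by
      rcases two_T (T^[K] x) with h | h <;> omega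
    calc (2:ℤ) ^ (K+1) * (3 * T (T^[K] x) + 1) = 2 ^ K * (2 * (3 * T (T^[K] x) + 1)) := by ring
      _ ≤ 2 ^ K * (5 * (3 * T^[K] x + 1)) := by
          apply mul_le_mul_of_nonneg_left h1 (by positivity)
      _ = 5 * (2 ^ K * (3 * T^[K] x + 1)) := by ring
      _ ≤ 5 * (5 ^ K * (3 * x + 1)) := by
          apply mul_le_mul_of_nonneg_left ih (by norm_num)
      _ = 5 ^ (K+1) * (3 * x + 1) := by ring

/-- Same parities for `m` steps: congruent modulo `2 ^ m`. -/
theorem dvd_of_par (m : ℕ) : ∀ a b : ℤ, (∀ i < m, par a i = par b i) → (2:ℤ) ^ m ∣ a - b := by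
  induction m with
  | zero => intro a b _; simp
  | succ m ih =>
    intro a b h
    have h0 : (a % 2 = 1 ↔ b % 2 = 1) := by
      exact decide_eq_decide.1 (h 0 (by omega))
    have h1 : (2:ℤ) ^ m ∣ T a - T b := by
      apply ih
      intro i hi
      exact h (i+1) (by omega)
    obtain ⟨t, ht⟩ := h1
    rcases two_T a with ⟨ha, ha'⟩ | ⟨ha, ha'⟩ <;> rcases two_T b with ⟨hb, hb'⟩ | ⟨hb, hb'⟩
    · refine ⟨t, ?_⟩
      rw [pow_succ]
      linear_combination ht * 2 - ha' + hb'
    · omega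
    · omega
    · have h5 : (2:ℤ) ^ (m+1) ∣ 5 * (a - b) := by
        refine ⟨t, ?_⟩
        rw [pow_succ]
        linear_combination ht * 2 - ha' + hb'
      have hc : IsCoprime ((2:ℤ) ^ (m+1)) 5 := by
        apply IsCoprime.pow_left
        exact ⟨-2, 1, by norm_num⟩
      exact hc.dvd_of_dvd_mul_left h5

theorem par_add (x : ℤ) (K i : ℕ) : par x (K + i) = par (T^[K] x) i := by
  unfold par
  rw [← Function.iterate_add_apply, Nat.add_comm]

/-- Different iterates have different parity continuations soon. -/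
theorem mismatch {x : ℤ} (hx : 0 < x) (L : ℕ) (hL : x < 2 ^ (L + 1)) {K K' : ℕ} (hK : K < K')
    (hne : T^[K] x ≠ T^[K'] x) :
    ∃ M, 59 * M ≤ 78 * K' + 59 * (L + 2) ∧ par x (K + M) ≠ par x (K' + M) := by
  by_contra hcon
  push Not at hcon
  obtain ⟨m, hm1, hm2⟩ : ∃ m, (∀ i < m, 59 * i ≤ 78 * K' + 59 * (L + 2)) ∧
      78 * K' + 59 * (L + 2) < 59 * m := by
    refine ⟨(78 * K' + 59 * (L + 2)) / 59 + 1, fun i hi => by omega, by omega⟩
  have hd : (2:ℤ) ^ m ∣ T^[K] x - T^[K'] x := by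
    apply dvd_of_par
    intro i hi
    rw [← par_add, ← par_add]
    exact hcon i (hm1 i hi)
  have hp1 := iter_pos hx K
  have hp2 := iter_pos hx K'
  -- both iterates are small
  have hb : ∀ J, J ≤ K' → 2 ^ K' * (3 * T^[J] x + 1) ≤ 5 ^ K' * (3 * x + 1) := by
    intro J hJ
    have h1 := iter_bound hx J
    have e1 : (2:ℤ) ^ K' = 2 ^ (K' - J) * 2 ^ J := by rw [← pow_add]; congr 1; omega
    have e2 : (5:ℤ) ^ K' = 5 ^ (K' - J) * 5 ^ J := by rw [← pow_add]; congr 1; omega
    have h2 : (2:ℤ) ^ (K' - J) ≤ 5 ^ (K' - J) := pow_le_pow_left₀ (by norm_num) (by norm_num) _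
    have hpj := iter_pos hx J
    calc (2:ℤ) ^ K' * (3 * T^[J] x + 1) = 2 ^ (K' - J) * (2 ^ J * (3 * T^[J] x + 1)) := by
          rw [e1]; ring
      _ ≤ 5 ^ (K' - J) * (5 ^ J * (3 * x + 1)) := by
          apply mul_le_mul h2 h1 (by positivity) (by positivity)
      _ = 5 ^ K' * (3 * x + 1) := by rw [e2]; ring
  have hb1 := hb K hK.le
  have hb2 := hb K' le_rfl
  have habs : (2:ℤ) ^ m ≤ |T^[K] x - T^[K'] x| :=
    Int.le_of_dvd (abs_pos.2 (sub_ne_zero.2 hne)) ((dvd_abs _ _).2 hd)
  have hlt : 2 ^ K' * (3 * |T^[K] x - T^[K'] x|) < 5 ^ K' * (3 * x + 1) := by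
    have hpow : (0:ℤ) < 2 ^ K' := by positivity
    rcases abs_cases (T^[K] x - T^[K'] x) with ⟨h1, _⟩ | ⟨h1, _⟩
    · rw [h1]
      refine lt_of_lt_of_le ?_ hb1
      apply mul_lt_mul_of_pos_left _ hpow
      linarith
    · rw [h1]
      refine lt_of_lt_of_le ?_ hb2
      apply mul_lt_mul_of_pos_left _ hpow
      linarith
  have h3 : (2:ℤ) ^ K' * (2 * 2 ^ m) < 5 ^ K' * 2 ^ (L + 3) := by
    calc (2:ℤ) ^ K' * (2 * 2 ^ m) ≤ 2 ^ K' * (3 * |T^[K] x - T^[K'] x|) := by
          apply mul_le_mul_of_nonneg_left _ (by positivity)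
          have : (0:ℤ) ≤ |T^[K] x - T^[K'] x| := abs_nonneg _
          linarith
      _ < 5 ^ K' * (3 * x + 1) := hlt
      _ ≤ 5 ^ K' * 2 ^ (L + 3) := by
          apply mul_le_mul_of_nonneg_left _ (by positivity)
          have : (2:ℤ) ^ (L + 3) = 4 * 2 ^ (L + 1) := by rw [pow_add, pow_add]; ring
          rw [this]; linarith
  -- raise to the power 59
  have h4 : ((2:ℤ) ^ K' * (2 * 2 ^ m)) ^ 59 < (5 ^ K' * 2 ^ (L + 3)) ^ 59 :=
    pow_lt_pow_left₀ h3 (by positivity) (by norm_num)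
  have h5 : ((5:ℤ) ^ K' * 2 ^ (L + 3)) ^ 59 ≤ 2 ^ (137 * K' + 59 * (L + 3)) := by
    have e : ((5:ℤ) ^ 59) ≤ 2 ^ 137 := by norm_num
    calc ((5:ℤ) ^ K' * 2 ^ (L + 3)) ^ 59 = (5 ^ 59) ^ K' * 2 ^ (59 * (L + 3)) := by
          rw [mul_pow, ← pow_mul, ← pow_mul, ← pow_mul]
          congr 2 <;> ring
      _ ≤ (2 ^ 137) ^ K' * 2 ^ (59 * (L + 3)) := by
          apply mul_le_mul_of_nonneg_right _ (by positivity)
          exact pow_le_pow_left₀ (by positivity) e _
      _ = 2 ^ (137 * K' + 59 * (L + 3)) := by rw [← pow_mul, ← pow_add]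
  have h6 : ((2:ℤ) ^ K' * (2 * 2 ^ m)) ^ 59 = 2 ^ (59 * K' + 59 + 59 * m) := by
    rw [mul_pow, mul_pow, ← pow_mul, ← pow_mul, ← pow_add, ← pow_add]
    congr 1
    ring
  rw [h6] at h4
  have h7 : (2:ℤ) ^ (59 * K' + 59 + 59 * m) < 2 ^ (137 * K' + 59 * (L + 3)) := h4.trans_le h5
  have h8 := (pow_lt_pow_iff_right₀ (by norm_num : (1:ℤ) < 2)).1 h7
  omega

/-- Number of different parity blocks of length `N` in the trajectory of `x`. -/
noncomputable def blocks (x : ℤ) (N : ℕ) : ℕ :=
  (Set.range fun (K : ℕ) (i : Fin N) => T^[K + i] x % 2).ncard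

theorem blocks_eq (x : ℤ) (N : ℕ) : blocks x N = cplx (par x) N := by
  unfold blocks cplx
  have himg : (Set.range fun (K : ℕ) (i : Fin N) => T^[K + i] x % 2) =
      (fun u : Fin N → Bool => fun i => if u i then (1:ℤ) else 0) '' Set.range (blk (par x) N) := by
    ext u
    constructor
    · rintro ⟨K, rfl⟩
      refine ⟨_, ⟨K, rfl⟩, ?_⟩
      funext i
      simp only [blk, par, decide_eq_true_eq]
      split_ifs with h
      · exact h.symm
      · omega
    · rintro ⟨_, ⟨K, rfl⟩, rfl⟩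
      refine ⟨K, ?_⟩
      funext i
      simp only [blk, par, decide_eq_true_eq]
      split_ifs with h
      · exact h
      · omega
  rw [himg]
  apply Set.InjOn.ncard_image
  intro u _ v _ huv
  funext i
  have := congrFun huv i
  simp only at this
  cases hu : u i <;> cases hv : v i <;> simp [hu, hv] at this ⊢

/-- Effective gap theorem for the trajectory of `x`. -/
theorem effective {x : ℤ} (hx : 0 < x) (N : ℕ) (hN : 20000 * (Nat.log 2 x.toNat + 5) ≤ N)
    (h : 200 * blocks x N ≤ 201 * N) :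
    ∃ i j : ℕ, i < j ∧ 200 * j ≤ 201 * N ∧ T^[i] x = T^[j] x := by
  by_contra hcon
  push Not at hcon
  set L := Nat.log 2 x.toNat with hL
  have hxL : x < 2 ^ (L + 1) := by
    have := Nat.lt_pow_succ_log_self (by norm_num : 1 < 2) x.toNat
    have h2 : (x.toNat : ℤ) = x := Int.toNat_of_nonneg hx.le
    have h3 : ((x.toNat : ℕ) : ℤ) < ((2 ^ (L + 1) : ℕ) : ℤ) := by exact_mod_cast this
    rw [h2] at h3
    push_cast at h3
    exact h3
  have hg := gap2 (par x) N (N / 200) (59 * (L + 2)) (by omega) (by omega) (by omega) ?_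
  · rw [← blocks_eq] at hg
    omega
  · intro K K' hK hK'
    exact mismatch hx L hxL hK (hcon K K' hK (by omega))

/-- No repetition means divergence. -/
theorem tendsto_iff (x : ℤ) :
    Filter.Tendsto (fun K : ℕ => |T^[K] x|) Filter.atTop Filter.atTop ↔
      ∀ i j : ℕ, i < j → T^[i] x ≠ T^[j] x := by
  constructor
  · intro h i j hij heq
    have hper : ∀ n, T^[i + n * (j - i)] x = T^[i] x := by
      intro n
      induction n with
      | zero => simp
      | succ n ih =>
        have e : i + (n + 1) * (j - i) = n * (j - i) + j := by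
          have : (n + 1) * (j - i) = n * (j - i) + (j - i) := by ring
          omega
        rw [e, Function.iterate_add_apply, ← heq, ← Function.iterate_add_apply, Nat.add_comm]
        exact ih
    have h1 := (Filter.tendsto_atTop.1 h (|T^[i] x| + 1))
    rw [Filter.eventually_atTop] at h1
    obtain ⟨B, hB⟩ := h1
    have h2 := hB (i + B * (j - i)) (by
      have : 1 ≤ j - i := by omega
      nlinarith)
    rw [hper B] at h2
    linarith
  · intro h
    rw [Filter.tendsto_atTop]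
    intro b
    have hinj : Function.Injective (fun K : ℕ => T^[K] x) := by
      intro i j hij
      rcases lt_trichotomy i j with hh | hh | hh
      · exact absurd hij (h i j hh)
      · exact hh
      · exact absurd hij.symm (h j i hh)
    have hfin : {K : ℕ | ¬ b ≤ |T^[K] x|}.Finite := by
      apply Set.Finite.of_finite_image (f := fun K : ℕ => T^[K] x) _ (hinj.injOn)
      apply (Set.finite_Icc (-|b|) |b|).subset
      rintro _ ⟨K, hK, rfl⟩
      simp only [Set.mem_ofPred_eq, not_le] at hK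
      have h1 : |T^[K] x| ≤ |b| := by
        have := le_abs_self b
        linarith
      exact ⟨by have := (abs_le.1 h1).1; exact this, (abs_le.1 h1).2⟩
    have := hfin.compl_mem_cofinite
    rw [Nat.cofinite_eq_atTop] at this
    filter_upwards [this] with K hK
    simpa using hK

end Pool.Agent.FX
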