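import Mathlib

/-! Combinatorics on words: a gap theorem for the block complexity of binary words with
few repetitions near the beginning. -/

set_option autoImplicit false

namespace Pool.Agent.FX

/-- The block of length `n` at position `a`. -/
def blk (w : ℕ → Bool) (n a : ℕ) : Fin n → Bool := fun i => w (a + i)

/-- Number of different blocks of length `n`. -/
noncomputable def cplx (w : ℕ → Bool) (n : ℕ) : ℕ := (Set.range (blk w n)).ncard

theorem blk_eq_iff (w : ℕ → Bool) (n a b : ℕ) :
    blk w n a = blk w n b ↔ ∀ x < n, w (a + x) = w (b + x) := by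
  constructor
  · intro h x hx
    exact congrFun h ⟨x, hx⟩
  · intro h
    funext i
    exact h i i.2

/-- Right special blocks. -/
def RS (w : ℕ → Bool) (n : ℕ) : Set (Fin n → Bool) :=
  {u | ∃ a b, blk w n a = u ∧ blk w n b = u ∧ w (a + n) ≠ w (b + n)}

theorem cplx_zero (w : ℕ → Bool) : cplx w 0 = 1 := by
  unfold cplx
  have : Set.range (blk w 0) = {blk w 0 0} := by
    ext u
    constructor
    · intro _
      exact Set.mem_singleton_iff.2 (funext fun i => i.elim0)
    · rintro rfl
      exact ⟨0, rfl⟩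
  rw [this, Set.ncard_singleton]

theorem range_finite (w : ℕ → Bool) (n : ℕ) : (Set.range (blk w n)).Finite := Set.toFinite _

/-- restriction of a block -/
def res {n m : ℕ} (h : n ≤ m) (u : Fin m → Bool) : Fin n → Bool := fun i => u ⟨i, lt_of_lt_of_le i.2 h⟩

theorem res_blk (w : ℕ → Bool) {n m : ℕ} (h : n ≤ m) (a : ℕ) : res h (blk w m a) = blk w n a := rfl

theorem cplx_mono (w : ℕ → Bool) {n m : ℕ} (h : n ≤ m) : cplx w n ≤ cplx w m := by
  unfold cplx
  have : Set.range (blk w n) ⊆ (res h) '' (Set.range (blk w m)) := by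
    rintro _ ⟨a, rfl⟩
    exact ⟨blk w m a, ⟨a, rfl⟩, rfl⟩
  calc (Set.range (blk w n)).ncard ≤ ((res h) '' (Set.range (blk w m))).ncard :=
        Set.ncard_le_ncard this (Set.toFinite _)
    _ ≤ _ := Set.ncard_image_le (Set.toFinite _)

/-- Every set of right special blocks adds to the complexity. -/
theorem cplx_succ (w : ℕ → Bool) (n : ℕ) : cplx w n + (RS w n).ncard ≤ cplx w (n + 1) := by
  classical
  -- choose an occurrence of every block
  have hch : ∀ u : Fin n → Bool, ∃ a, u ∈ Set.range (blk w n) → blk w n a = u := by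
    intro u
    by_cases h : u ∈ Set.range (blk w n)
    · obtain ⟨a, ha⟩ := h
      exact ⟨a, fun _ => ha⟩
    · exact ⟨0, fun h' => absurd h' h⟩
  choose f hf using hch
  have hch2 : ∀ u : Fin n → Bool, ∃ b, u ∈ RS w n → blk w n b = u ∧ w (b + n) ≠ w (f u + n) := by
    intro u
    by_cases h : u ∈ RS w n
    · obtain ⟨a, b, ha, hb, hab⟩ := h
      by_cases h1 : w (a + n) = w (f u + n)
      · refine ⟨b, fun _ => ⟨hb, ?_⟩⟩
        rw [← h1]
        exact fun h2 => hab h2.symm
      · exact ⟨a, fun _ => ⟨ha, h1⟩⟩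
    · exact ⟨0, fun h' => absurd h' h⟩
  choose g hg using hch2
  set S1 : Set (Fin (n+1) → Bool) := (fun u => blk w (n+1) (f u)) '' (Set.range (blk w n)) with hS1
  set S2 : Set (Fin (n+1) → Bool) := (fun u => blk w (n+1) (g u)) '' (RS w n) with hS2
  have hres : ∀ a, res (Nat.le_succ n) (blk w (n+1) a) = blk w n a := fun a => rfl
  have hsub : RS w n ⊆ Set.range (blk w n) := by
    rintro u ⟨a, b, ha, hb, hab⟩
    exact ⟨a, ha⟩
  have i1 : Set.InjOn (fun u => blk w (n+1) (f u)) (Set.range (blk w n)) := by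
    intro u hu v hv huv
    have := congrArg (res (Nat.le_succ n)) huv
    simp only [hres] at this
    rw [hf u hu, hf v hv] at this
    exact this
  have i2 : Set.InjOn (fun u => blk w (n+1) (g u)) (RS w n) := by
    intro u hu v hv huv
    have := congrArg (res (Nat.le_succ n)) huv
    simp only [hres] at this
    rw [(hg u hu).1, (hg v hv).1] at this
    exact this
  have c1 : S1.ncard = cplx w n := by
    rw [hS1, Set.ncard_image_of_injOn i1]; rfl
  have c2 : S2.ncard = (RS w n).ncard := by
    rw [hS2, Set.ncard_image_of_injOn i2]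
  have hdis : Disjoint S1 S2 := by
    rw [Set.disjoint_left]
    rintro z ⟨u, hu, rfl⟩ ⟨v, hv, hvu⟩
    have h1 := congrArg (res (Nat.le_succ n)) hvu
    simp only [hres] at h1
    rw [hf u hu, (hg v hv).1] at h1
    subst h1
    have h2 := congrFun hvu ⟨n, Nat.lt_succ_self n⟩
    exact (hg v hv).2 h2
  have hun : S1 ∪ S2 ⊆ Set.range (blk w (n+1)) := by
    rintro z (⟨u, hu, rfl⟩ | ⟨u, hu, rfl⟩)
    · exact ⟨_, rfl⟩
    · exact ⟨_, rfl⟩
  have := Set.ncard_le_ncard hun (Set.toFinite _)
  rw [Set.ncard_union_eq hdis (Set.toFinite _) (Set.toFinite _), c1, c2] at this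
  exact this

/-- Pigeonhole: among the first `cplx w n + 1` positions two carry the same block. -/
theorem exists_rep (w : ℕ → Bool) (n : ℕ) :
    ∃ b ≤ cplx w n, ∃ a < b, ∀ x < n, w (a + x) = w (b + x) := by
  classical
  by_contra hcon
  push Not at hcon
  have hinj : Set.InjOn (blk w n) (Set.Iic (cplx w n)) := by
    intro a ha b hb hab
    rcases lt_trichotomy a b with h | h | h
    · obtain ⟨x, hx, hne⟩ := hcon b hb a h
      exact absurd ((blk_eq_iff w n a b).1 hab x hx) hne
    · exact h
    · obtain ⟨x, hx, hne⟩ := hcon a ha b h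
      exact absurd ((blk_eq_iff w n a b).1 hab x hx).symm hne
  have h1 : (blk w n '' (Set.Iic (cplx w n))).ncard = cplx w n + 1 := by
    rw [Set.ncard_image_of_injOn hinj]
    rw [Set.ncard_eq_toFinset_card']
    simp
  have h2 : (blk w n '' (Set.Iic (cplx w n))).ncard ≤ cplx w n := by
    apply Set.ncard_le_ncard _ (Set.toFinite _)
    rintro _ ⟨a, _, rfl⟩
    exact ⟨a, rfl⟩
  omega

/-- First repetition of a block of length `L`, followed as far as possible (`M` letters). -/
structure Lev (w : ℕ → Bool) (L K K' M : ℕ) : Prop where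
  hL : L ≤ M
  hK : K < K'
  eq : ∀ x < M, w (K + x) = w (K' + x)
  ne : w (K + M) ≠ w (K' + M)
  dist : ∀ a b, a < b → b < K' → ∃ x < L, w (a + x) ≠ w (b + x)

theorem exists_lev (w : ℕ → Bool) (L B c : ℕ) (hB : cplx w L ≤ B)
    (hrep : ∀ K K', K < K' → K' ≤ B → ∃ M, 59 * M ≤ 78 * K' + c ∧ w (K + M) ≠ w (K' + M)) :
    ∃ K K' M, Lev w L K K' M ∧ K' ≤ cplx w L ∧ 59 * M ≤ 78 * K' + c := by
  classical
  have hex : ∃ b, ∃ a < b, ∀ x < L, w (a + x) = w (b + x) := by
    obtain ⟨b, _, a, hab, h⟩ := exists_rep w L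
    exact ⟨b, a, hab, h⟩
  obtain ⟨K, hK, hKe⟩ := Nat.find_spec hex
  set K' := Nat.find hex with hK'
  have hK'le : K' ≤ cplx w L := by
    obtain ⟨b, hb, a, hab, h⟩ := exists_rep w L
    exact (Nat.find_min' hex ⟨a, hab, h⟩).trans hb
  obtain ⟨M0, hM0, hne0⟩ := hrep K K' hK (hK'le.trans hB)
  have hexM : ∃ M, w (K + M) ≠ w (K' + M) := ⟨M0, hne0⟩
  refine ⟨K, K', Nat.find hexM, ⟨?_, hK, ?_, Nat.find_spec hexM, ?_⟩, hK'le, ?_⟩
  · by_contra hlt
    push Not at hlt
    exact Nat.find_spec hexM (hKe _ hlt)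
  · intro x hx
    by_contra hne
    exact Nat.find_min hexM hx hne
  · intro a b hab hb
    by_contra hcon
    push Not at hcon
    exact Nat.find_min hex hb ⟨a, hab, hcon⟩
  · have := Nat.find_min' hexM hne0
    omega

/-- Suffixes of a maximal match are right special. -/
theorem Lev.rs {w : ℕ → Bool} {L K K' M : ℕ} (h : Lev w L K K' M) {n : ℕ} (hn : n ≤ M) :
    blk w n (K + M - n) ∈ RS w n := by
  refine ⟨K + M - n, K' + M - n, rfl, ?_, ?_⟩
  · rw [blk_eq_iff]
    intro x hx
    have h1 : K + M - n + x = K + (M - n + x) := by omega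
    have h2 : K' + M - n + x = K' + (M - n + x) := by omega
    rw [h1, h2]
    exact (h.eq _ (by omega)).symm
  · have h1 : K + M - n + n = K + M := by omega
    have h2 : K' + M - n + n = K' + M := by omega
    rw [h1, h2]
    exact h.ne

/-- Fine and Wilf type comparison of two levels. -/
theorem Lev.fw {w : ℕ → Bool} {L K K' M L2 K2 K2' M2 : ℕ} (h : Lev w L K K' M)
    (h2 : Lev w L2 K2 K2' M2) (hlt : M < L2) :
    K' ≤ K2' ∧ (K2 + M < K2' ∨ K + M < K2') := by
  have hmono : K' ≤ K2' := by
    by_contra hlt'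
    push Not at hlt'
    obtain ⟨x, hx, hne⟩ := h.dist K2 K2' h2.hK hlt'
    exact hne (h2.eq x (by have := h.hL; have := h2.hL; omega))
  refine ⟨hmono, ?_⟩
  by_contra hcon
  push Not at hcon
  obtain ⟨hc1, hc2⟩ := hcon
  have hK := h.hK
  have hK2 := h2.hK
  have hL := h.hL
  have hL2 := h2.hL
  apply h.ne
  -- y = K' + M
  have e1 : w (K' + M) = w (K' + M - (K2' - K2)) := by
    have := h2.eq (K' + M - K2') (by omega)
    have a1 : K2 + (K' + M - K2') = K' + M - (K2' - K2) := by omega
    have a2 : K2' + (K' + M - K2') = K' + M := by omega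
    rw [a1, a2] at this
    exact this.symm
  have e2 : w (K' + M - (K2' - K2)) = w (K + M - (K2' - K2)) := by
    have := h.eq (M - (K2' - K2)) (by omega)
    have a1 : K + (M - (K2' - K2)) = K + M - (K2' - K2) := by omega
    have a2 : K' + (M - (K2' - K2)) = K' + M - (K2' - K2) := by omega
    rw [a1, a2] at this
    exact this.symm
  have e3 : w (K + M) = w (K + M - (K2' - K2)) := by
    have := h2.eq (K + M - K2') (by omega)
    have a1 : K2 + (K + M - K2') = K + M - (K2' - K2) := by omega
    have a2 : K2' + (K + M - K2') = K + M := by omega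
    rw [a1, a2] at this
    exact this.symm
  rw [e1, e2, e3]

/-- Periodicity inside a match. -/
theorem Lev.per {w : ℕ → Bool} {L K K' M : ℕ} (h : Lev w L K K' M) (n : ℕ) (hn : n ≤ M) :
    ∃ x0, K ≤ x0 ∧ x0 < K' ∧ x0 ≤ K + M - n ∧ blk w n x0 = blk w n (K + M - n) := by
  -- strong induction: any position P in [K, K+M-n] can be moved into [K, K')
  have key : ∀ P, K ≤ P → P ≤ K + M - n → ∃ x0, K ≤ x0 ∧ x0 < K' ∧ x0 ≤ P ∧ blk w n x0 = blk w n P := by
    intro P
    induction P using Nat.strong_induction_on with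
    | _ P ih =>
      intro hP1 hP2
      by_cases hlt : P < K'
      · exact ⟨P, hP1, hlt, le_rfl, rfl⟩
      · push Not at hlt
        have hK := h.hK
        obtain ⟨x0, a1, a2, a3, a4⟩ := ih (P - (K' - K)) (by omega) (by omega) (by omega)
        refine ⟨x0, a1, a2, by omega, ?_⟩
        rw [a4, blk_eq_iff]
        intro x hx
        have := h.eq (P - K' + x) (by omega)
        have b1 : K + (P - K' + x) = P - (K' - K) + x := by omega
        have b2 : K' + (P - K' + x) = P + x := by omega
        rw [b1, b2] at this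
        exact this
  obtain ⟨x0, a1, a2, a3, a4⟩ := key (K + M - n) (by omega) le_rfl
  exact ⟨x0, a1, a2, a3, a4⟩

/-- Comparison of the ends of the first occurrences of two consecutive right special blocks. -/
theorem Lev.ends {w : ℕ → Bool} {L K K' M L2 K2 K2' M2 n : ℕ} (h : Lev w L K K' M)
    (h2 : Lev w L2 K2 K2' M2) (hn1 : L ≤ n) (hn2 : n ≤ M) (hn3 : n ≤ M2)
    (hgood : (RS w n).Subsingleton) :
    K + n ≤ K2 + M2 ∧ (K + M < K' + n → K2 + M2 = K + M ∨ K' + n ≤ K2 + M2) := by
  have hv := hgood (h.rs hn2) (h2.rs hn3)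
  have hK := h.hK
  -- two positions below K' with the same n-block coincide
  have huniq : ∀ a b, a < K' → b < K' → blk w n a = blk w n b → a = b := by
    intro a b ha hb hab
    rw [blk_eq_iff] at hab
    rcases lt_trichotomy a b with hh | hh | hh
    · obtain ⟨x, hx, hne⟩ := h.dist a b hh hb
      exact absurd (hab x (by omega)) hne
    · exact hh
    · obtain ⟨x, hx, hne⟩ := h.dist b a hh ha
      exact absurd (hab x (by omega)).symm hne
  constructor
  · obtain ⟨x0, a1, a2, a3, a4⟩ := h.per n hn2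
    by_contra hlt
    push Not at hlt
    have := huniq x0 (K2 + M2 - n) a2 (by omega) (a4.trans hv)
    omega
  · intro hp
    by_cases hlt : K2 + M2 - n < K'
    · left
      have := huniq (K + M - n) (K2 + M2 - n) (by omega) hlt hv
      omega
    · right
      omega

end Pool.Agent.FX
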