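import Pool.Agent.FX.Gap

/-! More combinatorics on words: third occurrences, a periodicity lemma. -/

set_option autoImplicit false

namespace Pool.Agent.FX

/-- period `g` on the segment `[a, b)` -/
def Per (w : ℕ → Bool) (a b g : ℕ) : Prop := ∀ x, a ≤ x → x + g < b → w x = w (x + g)

theorem per_mono {w : ℕ → Bool} {a b g a' b' : ℕ} (h : Per w a b g) (ha : a ≤ a') (hb : b' ≤ b) :
    Per w a' b' g := fun x hx hxb => h x (by omega) (by omega)

/-- The periodicity theorem (in the weak form `length ≥ p + q`). -/
theorem per_gcd {w : ℕ → Bool} {a b : ℕ} : ∀ n p q : ℕ, p + q ≤ n → 0 < p → 0 < q → Per w a b p →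
    Per w a b q → a + (p + q) ≤ b → Per w a b (Nat.gcd p q) := by
  intro n
  induction n with
  | zero => intro p q hpq hp; omega
  | succ n ih =>
    intro p q hpq hp hq h1 h2 hab
    -- one subtraction step
    have key : ∀ p q : ℕ, 0 < p → p < q → Per w a b p → Per w a b q → a + (p + q) ≤ b →
        Per w a b (q - p) := by
      intro p q hp hlt h1 h2 hab x hx hxb
      by_cases hc : x + q < b
      · have e1 := h2 x hx hc
        have e2 := h1 (x + (q - p)) (by omega) (by omega)
        have e3 : x + (q - p) + p = x + q := by omega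
        rw [e3] at e2
        rw [e1, e2]
      · have e1 := h1 (x - p) (by omega) (by omega)
        have e2 := h2 (x - p) (by omega) (by omega)
        have e3 : x - p + p = x := by omega
        have e4 : x - p + q = x + (q - p) := by omega
        rw [e3] at e1
        rw [e4] at e2
        rw [← e1, e2]
    rcases lt_trichotomy p q with hlt | heq | hlt
    · have h3 := key p q hp hlt h1 h2 hab
      have h4 := ih p (q - p) (by omega) hp (by omega) h1 h3 (by omega)
      rwa [Nat.gcd_sub_self_right hlt.le] at h4
    · subst heq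
      rwa [Nat.gcd_self]
    · have h3 := key q p hq hlt h2 h1 (by omega)
      have h4 := ih (p - q) q (by omega) (by omega) hq h3 h2 (by omega)
      rwa [Nat.gcd_sub_self_left hlt.le] at h4

/-- A period `g` of a window of length at least `P + g` of a `P`-periodic segment, `g ∣ P`, is a
period of the segment. -/
theorem per_extend {w : ℕ → Bool} {a b a1 b1 g P : ℕ} (hg : 0 < g) (hP : 0 < P)
    (h : Per w a b P) (h1 : Per w a1 b1 g) (ha : a ≤ a1) (hb : b1 ≤ b) (hlen : a1 + (P + g) ≤ b1) :
    Per w a b g := by
  -- move a position into the window [a1, a1 + P)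
  have up : ∀ n x, a1 ≤ x + n → a ≤ x → x < a1 + P → x + g < b →
      (∃ y, a1 ≤ y ∧ y < a1 + P ∧ w x = w y ∧ w (x + g) = w (y + g)) := by
    intro n
    induction n with
    | zero => intro x h2 h3 h4 h5; exact ⟨x, by omega, h4, rfl, rfl⟩
    | succ n ih =>
      intro x h2 h3 h4 h5
      by_cases hx : a1 ≤ x
      · exact ⟨x, hx, h4, rfl, rfl⟩
      · push Not at hx
        have e1 := h x h3 (by omega)
        have e2 := h (x + g) (by omega) (by omega)
        obtain ⟨y, y1, y2, y3, y4⟩ := ih (x + P) (by omega) (by omega) (by omega) (by omega)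
        refine ⟨y, y1, y2, by rw [e1, y3], ?_⟩
        rw [e2]
        have e3 : x + g + P = x + P + g := by omega
        rw [e3, y4]
  have down : ∀ n x, x < a1 + P + n → a ≤ x → x + g < b →
      (∃ y, a ≤ y ∧ y < a1 + P ∧ w x = w y ∧ w (x + g) = w (y + g) ∧ y + g < b) := by
    intro n
    induction n with
    | zero => intro x h2 h3 h4; exact ⟨x, h3, by omega, rfl, rfl, h4⟩
    | succ n ih =>
      intro x h2 h3 h4
      by_cases hx : x < a1 + P
      · exact ⟨x, h3, hx, rfl, rfl, h4⟩
      · push Not at hx
        have e1 := h (x - P) (by omega) (by omega)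
        have e2 := h (x - P + g) (by omega) (by omega)
        have e3 : x - P + P = x := by omega
        have e4 : x - P + g + P = x + g := by omega
        rw [e3] at e1
        rw [e4] at e2
        obtain ⟨y, y1, y2, y3, y4, y5⟩ := ih (x - P) (by omega) (by omega) (by omega)
        exact ⟨y, y1, y2, by rw [← e1, y3], by rw [← e2, y4], y5⟩
  intro x hx hxb
  obtain ⟨y, y1, y2, y3, y4, y5⟩ := down x x (by omega) hx hxb
  obtain ⟨z, z1, z2, z3, z4⟩ := up a1 y (by omega) y1 y2 y5
  have := h1 z z1 (by omega)
  rw [y3, z3, y4, z4, this]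

/-- Three cases for the end of the first occurrence of the next right special block. -/
theorem Lev.third {w : ℕ → Bool} {L K K' M L2 K2 K2' M2 n : ℕ} (h : Lev w L K K' M)
    (h2 : Lev w L2 K2 K2' M2) (hn1 : L ≤ n) (hn2 : n ≤ M) (hn3 : n ≤ M2)
    (hgood : (RS w n).Subsingleton) (hp : K + M < K' + n) :
    K2 + M2 = K + M ∨ K2 + M2 = K' + M ∨ K + M + n < K2 + M2 := by
  have hv := hgood (h.rs hn2) (h2.rs hn3)
  have hK := h.hK
  have huniq : ∀ a b, a < K' → b < K' → blk w n a = blk w n b → a = b := by
    intro a b ha hb hab
    rw [blk_eq_iff] at hab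
    rcases lt_trichotomy a b with hh | hh | hh
    · obtain ⟨x, hx, hne⟩ := h.dist a b hh hb
      exact absurd (hab x (by omega)) hne
    · exact hh
    · obtain ⟨x, hx, hne⟩ := h.dist b a hh ha
      exact absurd (hab x (by omega)).symm hne
  by_contra hcon
  push Not at hcon
  obtain ⟨c1, c2, c3⟩ := hcon
  rw [blk_eq_iff] at hv
  -- v at P1 = K + M - n, at P1' = K' + M - n, at P2 = K2 + M2 - n
  have hP2 : K' ≤ K2 + M2 - n := by
    by_contra hlt
    push Not at hlt
    have := huniq (K + M - n) (K2 + M2 - n) (by omega) hlt ((blk_eq_iff w n _ _).2 hv)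
    omega
  have hv' : ∀ x < n, w (K' + M - n + x) = w (K2 + M2 - n + x) := by
    intro x hx
    rw [← hv x hx]
    have := h.eq (M - n + x) (by omega)
    have e1 : K + (M - n + x) = K + M - n + x := by omega
    have e2 : K' + (M - n + x) = K' + M - n + x := by omega
    rw [e1, e2] at this
    exact this.symm
  rcases lt_trichotomy (K2 + M2) (K' + M) with hlt | heq | hgt
  · -- shift back by the period
    have hs : blk w n (K2 + M2 - n - (K' - K)) = blk w n (K + M - n) := by
      rw [blk_eq_iff]
      intro x hx
      rw [hv x hx]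
      have := h.eq (K2 + M2 - n - K' + x) (by omega)
      have e1 : K + (K2 + M2 - n - K' + x) = K2 + M2 - n - (K' - K) + x := by omega
      have e2 : K' + (K2 + M2 - n - K' + x) = K2 + M2 - n + x := by omega
      rw [e1, e2] at this
      exact this
    have := huniq _ _ (by omega) (by omega) hs
    omega
  · exact c2 heq
  · -- periods p = K' - K and t = K2 + M2 - (K' + M)
    have hne := h.ne
    apply hne
    -- a = w (K + M), b = w (K' + M)
    have ha : w (K + M) = w (K' + M - n + (n - (K' - K))) := by
      congr 1; omega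
    have hb : w (K' + M) = w (K2 + M2 - n + (n - (K2 + M2 - (K' + M)))) := by
      congr 1; omega
    -- values inside v, read at K' + M - n
    have hb2 : w (K' + M) = w (K' + M - n + (n - (K2 + M2 - (K' + M)))) := by
      rw [hb, ← hv' _ (by omega)]
    -- period t inside v
    have ht : w (K' + M - n + (n - (K' - K) - (K2 + M2 - (K' + M)))) =
        w (K' + M - n + (n - (K' - K))) := by
      rw [hv' _ (by omega)]
      congr 1
      omega
    -- period p inside v
    have hpp : w (K' + M - n + (n - (K2 + M2 - (K' + M)) - (K' - K))) =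
        w (K' + M - n + (n - (K2 + M2 - (K' + M)))) := by
      have := h.eq (M - n + (n - (K2 + M2 - (K' + M)))) (by omega)
      have e1 : K + (M - n + (n - (K2 + M2 - (K' + M)))) =
        K' + M - n + (n - (K2 + M2 - (K' + M)) - (K' - K)) := by omega
      have e2 : K' + (M - n + (n - (K2 + M2 - (K' + M)))) =
        K' + M - n + (n - (K2 + M2 - (K' + M))) := by omega
      rw [e1, e2] at this
      exact this
    rw [ha, hb2, ← ht, ← hpp]
    congr 1
    omega

end Pool.Agent.FX
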